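import Mathlib

namespace Pool.Agent.Results.MP_155ab0_nt.LimitZero

open Finset

/-- The integers that occur as a multinomial coefficient `n! / (i_1! ⋯ i_k!)` with `k ≥ 1`,
`i_1, …, i_k ≥ 0` and `i_1 + ⋯ + i_k = n`. -/
def multinomials (n : ℕ) : Set ℕ :=
  {v | ∃ l : List ℕ, l ≠ [] ∧ l.sum = n ∧ v = n.factorial / (l.map Nat.factorial).prod}

/-- The number of distinct multinomial coefficients with upper entry `n`. -/
noncomputable def M (n : ℕ) : ℕ := (multinomials n).ncard

/-- products of factorials over lists with sum `n` -/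
def W (n : ℕ) : Set ℕ := {w | ∃ l : List ℕ, l.sum = n ∧ w = (l.map Nat.factorial).prod}

/-- `t` has a prime factor larger than `Y`. -/
def NS (Y t : ℕ) : Prop := ∃ p, p.Prime ∧ Y < p ∧ p ∣ t

open Classical in
/-- rounding down to a number with a prime factor `> Y` -/
noncomputable def rho (Y : ℕ) : ℕ → ℕ
  | 0 => 0
  | a + 1 => if NS Y (a + 1) then a + 1 else rho Y a

lemma rho_le (Y a : ℕ) : rho Y a ≤ a := by
  induction a with
  | zero => simp [rho]
  | succ a ih =>
    rw [rho]
    split_ifs <;> omega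

lemma rho_NS (Y a : ℕ) : rho Y a = 0 ∨ NS Y (rho Y a) := by
  induction a with
  | zero => left; simp [rho]
  | succ a ih =>
    rw [rho]
    split_ifs with h
    · right; exact h
    · exact ih

lemma fact_rho {Y p : ℕ} (hp : p.Prime) (hY : Y < p) (a : ℕ) :
    (a.factorial).factorization p = ((rho Y a).factorial).factorization p := by
  induction a with
  | zero => simp [rho]
  | succ a ih =>
    rw [rho]
    split_ifs with h
    · rfl
    · rw [← ih, Nat.factorial_succ, Nat.factorization_mul (by omega) (Nat.factorial_ne_zero a),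
        Finsupp.add_apply, Nat.factorization_eq_zero_of_not_dvd, zero_add]
      intro hd
      exact h ⟨p, hp, hY, hd⟩

lemma prod_ne_zero (l : List ℕ) : (l.map Nat.factorial).prod ≠ 0 := by
  apply List.prod_ne_zero
  intro h
  rw [List.mem_map] at h
  obtain ⟨a, _, ha⟩ := h
  exact Nat.factorial_ne_zero a ha

lemma fact_prod (l : List ℕ) (p : ℕ) : ((l.map Nat.factorial).prod).factorization p =
    (l.map fun a => (a.factorial).factorization p).sum := by
  induction l with
  | nil => simp
  | cons a l ih =>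
    rw [List.map_cons, List.prod_cons, Nat.factorization_mul (Nat.factorial_ne_zero a)
      (prod_ne_zero l), Finsupp.add_apply, ih, List.map_cons, List.sum_cons]

lemma fact_le (p a : ℕ) : (a.factorial).factorization p ≤ a := by
  by_cases hp : p.Prime
  · have : Fact p.Prime := ⟨hp⟩
    rw [Nat.factorization_def _ hp]
    have h := sub_one_mul_padicValNat_factorial (p := p) a
    have h1 : 1 ≤ p - 1 := by have := hp.two_le; omega
    calc padicValNat p a.factorial ≤ (p - 1) * padicValNat p a.factorial :=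
          Nat.le_mul_of_pos_left _ h1
      _ = a - (p.digits a).sum := h
      _ ≤ a := Nat.sub_le _ _
  · rw [Nat.factorization_eq_zero_of_not_prime _ hp]
    exact Nat.zero_le _

lemma fact_prod_le (l : List ℕ) (p : ℕ) :
    ((l.map Nat.factorial).prod).factorization p ≤ l.sum := by
  rw [fact_prod]
  induction l with
  | nil => simp
  | cons a l ih =>
    rw [List.map_cons, List.sum_cons, List.sum_cons]
    exact Nat.add_le_add (fact_le p a) ih

open Classical in
/-- the relevant indices -/
noncomputable def T (Y n : ℕ) : Finset ℕ := (Icc 1 n).filter (NS Y)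

lemma mem_T {Y n t : ℕ} : t ∈ T Y n ↔ (1 ≤ t ∧ t ≤ n) ∧ NS Y t := by
  simp only [T, mem_filter, mem_Icc]

lemma mem_le_sum {l : List ℕ} {a : ℕ} (h : a ∈ l) : a ≤ l.sum := List.le_sum_of_mem h

lemma sum_count {Y : ℕ} (l : List ℕ) (f : ℕ → ℕ) (hf : f 0 = 0) :
    (l.map fun a => f (rho Y a)).sum =
      ∑ t ∈ T Y l.sum, (l.map (rho Y)).count t * f t := by
  classical
  have h1 : (l.map fun a => f (rho Y a)) = (l.map (rho Y)).map f := by
    rw [List.map_map]; rfl
  rw [h1, Finset.sum_list_map_count]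
  have hmem : ∀ x ∈ (l.map (rho Y)).toFinset, x ∉ T Y l.sum → x = 0 := by
    intro x hx hxT
    rw [List.mem_toFinset, List.mem_map] at hx
    obtain ⟨a, ha, rfl⟩ := hx
    rcases rho_NS Y a with h | h
    · exact h
    · by_contra h0
      apply hxT
      rw [T, mem_filter, mem_Icc]
      exact ⟨⟨by omega, (rho_le Y a).trans (mem_le_sum ha)⟩, h⟩
  have h2 : ∑ m ∈ (l.map (rho Y)).toFinset, (l.map (rho Y)).count m • f m =
      ∑ m ∈ (l.map (rho Y)).toFinset ∪ T Y l.sum, (l.map (rho Y)).count m • f m := by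
    apply sum_subset subset_union_left
    intro x _ hx
    rw [List.mem_toFinset] at hx
    rw [List.count_eq_zero_of_not_mem hx, zero_smul]
  have h3 : ∑ m ∈ T Y l.sum, (l.map (rho Y)).count m • f m =
      ∑ m ∈ (l.map (rho Y)).toFinset ∪ T Y l.sum, (l.map (rho Y)).count m • f m := by
    apply sum_subset subset_union_right
    intro x hx hxT
    rw [mem_union] at hx
    rcases hx with hx | hx
    · rw [hmem x hx hxT, hf, smul_zero]
    · exact absurd hx hxT
  rw [h2, ← h3]
  rfl

/-- admissible count vectors -/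
noncomputable def AA (Y n : ℕ) : Finset (T Y n → ℕ) :=
  (Fintype.piFinset fun _ : T Y n => range (n + 1)).filter fun c => ∑ t : T Y n, c t * t ≤ n

lemma W_card (Y n : ℕ) :
    (W n).ncard ≤ (n + 1) ^ (Nat.primeCounting Y) * (AA Y n).card := by
  classical
  set P := Nat.primesLE Y with hP
  -- choose a list
  let L : ℕ → List ℕ := fun w => if h : w ∈ W n then h.choose else []
  have hL : ∀ w ∈ W n, (L w).sum = n ∧ w = ((L w).map Nat.factorial).prod := by
    intro w hw
    simp only [L, dif_pos hw]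
    exact hw.choose_spec
  let Φ : ℕ → (P → Fin (n + 1)) × (T Y n → ℕ) := fun w =>
    (fun p => ⟨min (w.factorization p) n, by omega⟩,
      fun t => ((L w).map (rho Y)).count (t : ℕ))
  set target : Finset ((P → Fin (n + 1)) × (T Y n → ℕ)) := univ ×ˢ AA Y n with htarget
  have hcard : target.card = (n + 1) ^ (Nat.primeCounting Y) * (AA Y n).card := by
    rw [htarget, card_product, card_univ, Fintype.card_fun, Fintype.card_fin, Fintype.card_coe,
      hP, Nat.primesLE_card_eq_primeCounting]
  rw [← hcard, ← Set.ncard_coe_finset]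
  apply Set.ncard_le_ncard_of_injOn Φ _ _ (Finset.finite_toSet _)
  · intro w hw
    obtain ⟨h1, h2⟩ := hL w hw
    rw [mem_coe, htarget, mem_product]
    refine ⟨mem_univ _, ?_⟩
    simp only [Φ, AA, mem_filter, Fintype.mem_piFinset, mem_range]
    have hsum : ∑ t : T Y n, ((L w).map (rho Y)).count (t : ℕ) * (t : ℕ) ≤ n := by
      have h3 := sum_count (Y := Y) (L w) (fun x => x) rfl
      rw [h1] at h3
      have h4 : ∑ t : T Y n, ((L w).map (rho Y)).count (t : ℕ) * (t : ℕ) =
          ∑ t ∈ T Y n, ((L w).map (rho Y)).count t * t :=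
        Finset.sum_coe_sort (T Y n) (fun t => ((L w).map (rho Y)).count t * t)
      rw [h4, ← h3]
      have h5 : ∀ l : List ℕ, (l.map fun a => rho Y a).sum ≤ l.sum := by
        intro l
        induction l with
        | nil => simp
        | cons a l ih =>
          rw [List.map_cons, List.sum_cons, List.sum_cons]
          exact Nat.add_le_add (rho_le Y a) ih
      exact (h5 _).trans h1.le
    refine ⟨?_, hsum⟩
    intro t
    have h3 : ((L w).map (rho Y)).count (t : ℕ) * (t : ℕ) ≤ n := by
      refine le_trans ?_ hsum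
      exact Finset.single_le_sum (f := fun t : T Y n => ((L w).map (rho Y)).count (t : ℕ) * (t : ℕ))
        (fun _ _ => Nat.zero_le _) (mem_univ t)
    have h4 : 1 ≤ (t : ℕ) := (mem_T.1 t.2).1.1
    have h5 : ((L w).map (rho Y)).count (t : ℕ) ≤ ((L w).map (rho Y)).count (t : ℕ) * (t : ℕ) :=
      Nat.le_mul_of_pos_right _ h4
    omega
  · intro w hw w' hw' heq
    obtain ⟨h1, h2⟩ := hL w hw
    obtain ⟨h1', h2'⟩ := hL w' hw'
    rw [Prod.mk.injEq] at heq
    obtain ⟨e1, e2⟩ := heq
    apply Nat.eq_of_factorization_eq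
    · rw [h2]; exact prod_ne_zero _
    · rw [h2']; exact prod_ne_zero _
    intro p
    by_cases hp : p.Prime
    · rcases Nat.lt_or_ge Y p with hY | hY
      · have key : ∀ l : List ℕ, l.sum = n → ((l.map Nat.factorial).prod).factorization p =
            ∑ t ∈ T Y n, (l.map (rho Y)).count t * (t.factorial).factorization p := by
          intro l hl
          rw [fact_prod]
          have h3 := sum_count (Y := Y) l (fun x => (x.factorial).factorization p) (by simp)
          rw [hl] at h3
          rw [← h3]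
          congr 1
          apply List.map_congr_left
          intro a _
          exact fact_rho hp hY a
        rw [h2, h2', key _ h1, key _ h1']
        apply sum_congr rfl
        intro t ht
        have := congrFun e2 ⟨t, ht⟩
        simp only at this
        rw [this]
      · have hpP : p ∈ P := by
          rw [hP, Nat.mem_primesLE]
          exact ⟨hY, hp⟩
        have := congrFun e1 ⟨p, hpP⟩
        simp only [Fin.mk.injEq] at this
        have b1 : w.factorization p ≤ n := by
          rw [h2, ← h1]; exact fact_prod_le _ _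
        have b2 : w'.factorization p ≤ n := by
          rw [h2', ← h1']; exact fact_prod_le _ _
        omega
    · rw [Nat.factorization_eq_zero_of_not_prime _ hp, Nat.factorization_eq_zero_of_not_prime _ hp]

/-- generating function bound -/
lemma AA_card (Y n : ℕ) {s : ℝ} (hs : 0 < s) :
    ((AA Y n).card : ℝ) ≤ Real.exp (s * n) * ∏ t ∈ T Y n, (1 - Real.exp (-(s * t)))⁻¹ := by
  have h1 : ((AA Y n).card : ℝ) ≤
      ∑ c ∈ AA Y n, Real.exp (s * n) * ∏ t : T Y n, (Real.exp (-(s * (t : ℕ)))) ^ (c t) := by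
    rw [card_eq_sum_ones, Nat.cast_sum]
    apply sum_le_sum
    intro c hc
    rw [AA, mem_filter] at hc
    have h2 : ∏ t : T Y n, (Real.exp (-(s * (t : ℕ)))) ^ (c t) =
        Real.exp (-(s * (∑ t : T Y n, c t * (t : ℕ) : ℕ))) := by
      push_cast
      rw [mul_sum, ← sum_neg_distrib, Real.exp_sum]
      apply prod_congr rfl
      intro t _
      rw [← Real.exp_nat_mul]
      congr 1
      ring
    rw [h2, ← Real.exp_add, Nat.cast_one]
    apply Real.one_le_exp
    have h3 : ((∑ t : T Y n, c t * (t : ℕ) : ℕ) : ℝ) ≤ n := by exact_mod_cast hc.2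
    nlinarith
  refine h1.trans ?_
  rw [← mul_sum]
  apply mul_le_mul_of_nonneg_left _ (Real.exp_pos _).le
  calc ∑ c ∈ AA Y n, ∏ t : T Y n, (Real.exp (-(s * (t : ℕ)))) ^ (c t)
      ≤ ∑ c ∈ Fintype.piFinset (fun _ : T Y n => range (n + 1)),
          ∏ t : T Y n, (Real.exp (-(s * (t : ℕ)))) ^ (c t) := by
        apply sum_le_sum_of_subset_of_nonneg
        · rw [AA]; exact filter_subset _ _
        · intro c _ _
          exact prod_nonneg fun t _ => pow_nonneg (Real.exp_pos _).le _
    _ = ∏ t : T Y n, ∑ k ∈ range (n + 1), (Real.exp (-(s * (t : ℕ)))) ^ k := by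
        rw [prod_univ_sum]
    _ ≤ ∏ t : T Y n, (1 - Real.exp (-(s * (t : ℕ))))⁻¹ := by
        apply prod_le_prod
        · intro t _
          exact sum_nonneg fun k _ => pow_nonneg (Real.exp_pos _).le _
        · intro t _
          have ht : 1 ≤ (t : ℕ) := (mem_T.1 t.2).1.1
          have ht' : (1 : ℝ) ≤ (t : ℕ) := by exact_mod_cast ht
          have hlt : Real.exp (-(s * (t : ℕ))) < 1 := by
            rw [Real.exp_lt_one_iff]
            nlinarith
          rw [← tsum_geometric_of_lt_one (Real.exp_pos _).le hlt]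
          exact (summable_geometric_of_lt_one (Real.exp_pos _).le hlt).sum_le_tsum _
            (fun k _ => pow_nonneg (Real.exp_pos _).le _)
    _ = ∏ t ∈ T Y n, (1 - Real.exp (-(s * t)))⁻¹ :=
        Finset.prod_coe_sort (T Y n) (fun t => (1 - Real.exp (-(s * (t : ℝ))))⁻¹)

lemma M_le_W (n : ℕ) : M n ≤ (W n).ncard := by
  have hfin : (W n).Finite := by
    apply (Set.finite_Iic (n.factorial)).subset
    rintro w ⟨l, hl, rfl⟩
    rw [Set.mem_Iic]
    apply Nat.le_of_dvd (Nat.factorial_pos n)
    rw [← hl]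
    clear hl
    induction l with
    | nil => simp
    | cons a l ih =>
      rw [List.map_cons, List.prod_cons, List.sum_cons]
      exact (Nat.mul_dvd_mul_left _ ih).trans (Nat.factorial_mul_factorial_dvd_factorial_add _ _)
  have hsub : multinomials n ⊆ (fun w => n.factorial / w) '' W n := by
    rintro v ⟨l, _, hl, rfl⟩
    exact ⟨_, ⟨l, hl, rfl⟩, rfl⟩
  exact (Set.ncard_le_ncard hsub (hfin.image _)).trans (Set.ncard_image_le hfin)

lemma M_pos (n : ℕ) : 1 ≤ M n := by
  have hfin : (multinomials n).Finite := by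
    apply (Set.finite_Iic (n.factorial)).subset
    rintro v ⟨l, _, hl, rfl⟩
    exact Nat.div_le_self _ _
  rw [M, Nat.one_le_iff_ne_zero, ← Nat.pos_iff_ne_zero, Set.ncard_pos hfin]
  exact ⟨_, [n], by simp, by simp, rfl⟩

lemma log_M_le (Y n : ℕ) {s : ℝ} (hs : 0 < s) :
    Real.log (M n) ≤ (Nat.primeCounting Y) * Real.log (n + 1) + s * n +
      ∑ t ∈ T Y n, -Real.log (1 - Real.exp (-(s * t))) := by
  have h1 : (M n : ℝ) ≤ ((n + 1) ^ (Nat.primeCounting Y) * (AA Y n).card : ℕ) := by
    exact_mod_cast (M_le_W n).trans (W_card Y n)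
  push_cast at h1
  have hM : (0 : ℝ) < M n := by exact_mod_cast M_pos n
  have h2 : (M n : ℝ) ≤ (n + 1) ^ (Nat.primeCounting Y) * (Real.exp (s * n) *
      ∏ t ∈ T Y n, (1 - Real.exp (-(s * t)))⁻¹) :=
    h1.trans (mul_le_mul_of_nonneg_left (AA_card Y n hs) (by positivity))
  have hpos : ∀ t ∈ T Y n, 0 < 1 - Real.exp (-(s * t)) := by
    intro t ht
    have ht' : (1 : ℝ) ≤ (t : ℕ) := by exact_mod_cast (mem_T.1 ht).1.1
    have hlt : Real.exp (-(s * (t : ℕ))) < 1 := by
      rw [Real.exp_lt_one_iff]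
      nlinarith
    linarith
  have h3 := Real.log_le_log hM h2
  have hprod : (0 : ℝ) < ∏ t ∈ T Y n, (1 - Real.exp (-(s * t)))⁻¹ :=
    prod_pos fun t ht => inv_pos.2 (hpos t ht)
  rw [Real.log_mul (by positivity) (by positivity), Real.log_pow,
    Real.log_mul (Real.exp_pos _).ne' hprod.ne', Real.log_exp,
    Real.log_prod (fun t ht => (inv_pos.2 (hpos t ht)).ne')] at h3
  simp only [Real.log_inv] at h3
  linarith

/-- Chebyshev's upper bound -/
lemma cheb {y : ℝ} (hy : 2 ≤ y) : (Nat.primeCounting ⌊y⌋₊ : ℝ) * Real.log y ≤ 5 * y := by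
  have h := Chebyshev.pi_le_log4_mul_div (x := y) (by linarith)
  have hlog : 0 < Real.log y := Real.log_pos (by linarith)
  have hsq : Real.log √y = Real.log y / 2 := Real.log_sqrt (by linarith)
  rw [hsq] at h
  have hs : 0 < √y := Real.sqrt_pos.2 (by linarith)
  have h2 : Real.log y ≤ 2 * √y := by
    have := Real.log_le_sub_one_of_pos hs
    linarith
  have h4 : Real.log 4 ≤ 1.39 := by
    have : Real.log 4 = 2 * Real.log 2 := by
      rw [show (4 : ℝ) = 2 ^ 2 by norm_num, Real.log_pow]; norm_num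
    rw [this]
    have := Real.log_two_lt_d9
    linarith
  have h5 : (Nat.primeCounting ⌊y⌋₊ : ℝ) * Real.log y ≤
      (Real.log 4 * y / (Real.log y / 2) + √y) * Real.log y :=
    mul_le_mul_of_nonneg_right h hlog.le
  have h6 : (Real.log 4 * y / (Real.log y / 2) + √y) * Real.log y =
      2 * (Real.log 4 * y) + √y * Real.log y := by
    field_simp
  have h7 : √y * Real.log y ≤ 2 * y := by
    calc √y * Real.log y ≤ √y * (2 * √y) := mul_le_mul_of_nonneg_left h2 hs.le
      _ = 2 * (√y * √y) := by ring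
      _ = 2 * y := by rw [Real.mul_self_sqrt (by linarith)]
  have h8 : Real.log 4 * y ≤ 1.39 * y := mul_le_mul_of_nonneg_right h4 (by linarith)
  linarith

lemma card_small {Y n : ℕ} (hY : 1 ≤ Y) {X : ℝ} (hX : 0 ≤ X) :
    (((T Y n).filter fun t : ℕ => (t : ℝ) ≤ X).card : ℝ) ≤
      (Nat.primeCounting ⌊X⌋₊ : ℝ) * (X / Y) := by
  classical
  have hsub : (T Y n).filter (fun t : ℕ => (t : ℝ) ≤ X) ⊆
      (Nat.primesLE ⌊X⌋₊ ×ˢ Icc 1 ⌊X / Y⌋₊).image fun q => q.1 * q.2 := by
    intro t ht
    rw [mem_filter, mem_T] at ht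
    obtain ⟨⟨⟨h1, _⟩, p, hp, hYp, j, rfl⟩, h3⟩ := ht
    rw [mem_image]
    refine ⟨(p, j), ?_, rfl⟩
    have hj : 1 ≤ j := Nat.pos_of_ne_zero (by rintro rfl; simp at h1)
    have hYr : (0 : ℝ) < Y := by exact_mod_cast hY
    have hpr : (Y : ℝ) < p := by exact_mod_cast hYp
    have hjr : (1 : ℝ) ≤ j := by exact_mod_cast hj
    push_cast at h3
    rw [mem_product, Nat.mem_primesLE, mem_Icc]
    refine ⟨⟨?_, hp⟩, hj, ?_⟩
    · apply Nat.le_floor
      nlinarith
    · apply Nat.le_floor
      rw [le_div_iff₀ hYr]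
      nlinarith
  have h1 := (card_le_card hsub).trans card_image_le
  rw [card_product, Nat.primesLE_card_eq_primeCounting, Nat.card_Icc, Nat.add_sub_cancel] at h1
  have h2 : (((T Y n).filter fun t : ℕ => (t : ℝ) ≤ X).card : ℝ) ≤
      (Nat.primeCounting ⌊X⌋₊ : ℝ) * (⌊X / Y⌋₊ : ℝ) := by exact_mod_cast h1
  refine h2.trans (mul_le_mul_of_nonneg_left ?_ (by positivity))
  exact Nat.floor_le (by positivity)

lemma neg_log_le {u : ℝ} (h0 : 0 ≤ u) (h1 : u ≤ 1 / 2) : -Real.log (1 - u) ≤ 2 * u := by
  have h2 : 0 < 1 - u := by linarith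
  have h3 := Real.one_sub_inv_le_log_of_pos h2
  have h4 : (1 - u)⁻¹ ≤ 1 + 2 * u := by
    rw [inv_le_comm₀ h2 (by linarith), inv_le_iff_one_le_mul₀ (by linarith)]
    nlinarith
  linarith

lemma geom_bound {s : ℝ} (hs : 0 < s) (hs1 : s ≤ 1) (N : ℕ) :
    ∑ t ∈ range N, Real.exp (-(s * t)) ≤ 2 / s := by
  have hlt : Real.exp (-s) < 1 := by rw [Real.exp_lt_one_iff]; linarith
  have h1 : ∑ t ∈ range N, Real.exp (-(s * t)) = ∑ t ∈ range N, (Real.exp (-s)) ^ t := by
    apply sum_congr rfl
    intro t _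
    rw [← Real.exp_nat_mul]
    congr 1
    ring
  have h2 : ∑ t ∈ range N, (Real.exp (-s)) ^ t ≤ (1 - Real.exp (-s))⁻¹ := by
    rw [← tsum_geometric_of_lt_one (Real.exp_pos _).le hlt]
    exact (summable_geometric_of_lt_one (Real.exp_pos _).le hlt).sum_le_tsum _
      (fun k _ => pow_nonneg (Real.exp_pos _).le _)
  have h3 : Real.exp (-s) ≤ 1 - s / 2 := by
    have h4 := Real.add_one_le_exp s
    have h5 : Real.exp (-s) ≤ (1 + s)⁻¹ := by
      rw [Real.exp_neg]
      exact inv_anti₀ (by linarith) (by linarith)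
    refine h5.trans ?_
    rw [inv_le_iff_one_le_mul₀ (by linarith)]
    nlinarith
  rw [h1]
  refine h2.trans ?_
  rw [inv_le_comm₀ (by linarith) (by positivity), inv_div]
  linarith

lemma main_bound {ε : ℝ} (hε : 0 < ε) : ∃ X0 : ℝ, ∀ n : ℕ, X0 ≤ √n →
    Real.log (M n) ≤ ε * √n := by
  set lam := min (ε / 4) 1 with hlam
  have hlam0 : 0 < lam := by rw [hlam]; positivity
  have hlam1 : lam ≤ 1 := min_le_right _ _
  have hlamε : 4 * lam ≤ ε := by have := min_le_left (ε / 4) 1; linarith
  -- choose `K`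
  obtain ⟨K, hK1, hK2⟩ : ∃ K : ℝ, 2 ≤ lam * K ∧ 8 * Real.exp (-(lam * K / 2)) / lam ≤ lam := by
    set L := max 2 (2 * Real.log (8 / lam ^ 2)) with hL
    refine ⟨L / lam, ?_, ?_⟩
    · rw [mul_div_cancel₀ _ hlam0.ne']
      exact le_max_left _ _
    · rw [mul_div_cancel₀ _ hlam0.ne', div_le_iff₀ hlam0]
      have h1 : Real.exp (-(L / 2)) ≤ lam ^ 2 / 8 := by
        rw [← Real.exp_log (show (0 : ℝ) < lam ^ 2 / 8 by positivity), Real.exp_le_exp]
        have h2 : Real.log (lam ^ 2 / 8) = - Real.log (8 / lam ^ 2) := by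
          rw [← Real.log_inv, inv_div]
        rw [h2]
        have := le_max_right 2 (2 * Real.log (8 / lam ^ 2))
        linarith
      nlinarith
  have hK0 : 0 < K := by
    by_contra h
    push Not at h
    nlinarith
  set eta := lam / 15 with heta
  have heta0 : 0 < eta := by positivity
  set C1 := -Real.log (1 - Real.exp (-(lam * eta))) with hC1
  have hexp1 : Real.exp (-(lam * eta)) < 1 := by
    rw [Real.exp_lt_one_iff]
    have : 0 < lam * eta := by positivity
    linarith
  have hC10 : 0 ≤ C1 := by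
    rw [hC1]
    have : Real.log (1 - Real.exp (-(lam * eta))) ≤ 0 :=
      Real.log_nonpos (by linarith) (by linarith [Real.exp_pos (-(lam * eta))])
    linarith
  set D := 10 * C1 * K ^ 2 / (eta * lam) with hD
  refine ⟨max (max (2 / eta) (2 / eta ^ 3)) (max (max 1 (2 / K)) (Real.exp D / K)), ?_⟩
  intro n hn
  set x := √(n : ℝ) with hx
  have g1 : 2 / eta ≤ x := (le_max_left _ _).trans ((le_max_left _ _).trans hn)
  have g2 : 2 / eta ^ 3 ≤ x := (le_max_right _ _).trans ((le_max_left _ _).trans hn)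
  have g3 : 1 ≤ x :=
    (le_max_left _ _).trans ((le_max_left _ _).trans ((le_max_right _ _).trans hn))
  have g4 : 2 / K ≤ x :=
    (le_max_right _ _).trans ((le_max_left _ _).trans ((le_max_right _ _).trans hn))
  have g5 : Real.exp D / K ≤ x := (le_max_right _ _).trans ((le_max_right _ _).trans hn)
  rw [div_le_iff₀ heta0] at g1
  rw [div_le_iff₀ (by positivity)] at g2
  rw [div_le_iff₀ hK0] at g4 g5
  have hx0 : 0 < x := by linarith
  have hxn : x ^ 2 = n := Real.sq_sqrt (Nat.cast_nonneg n)
  set Y := ⌊eta * x⌋₊ with hY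
  have hY1 : 1 ≤ Y := by
    apply Nat.le_floor
    push_cast
    nlinarith
  have hYlt : eta * x < Y + 1 := Nat.lt_floor_add_one _
  have hYge : eta * x / 2 ≤ Y := by
    have : (1 : ℝ) ≤ Y := by exact_mod_cast hY1
    linarith
  set s := lam / x with hs
  have hs0 : 0 < s := by positivity
  have hsx : s * x = lam := div_mul_cancel₀ _ hx0.ne'
  have hs1 : s ≤ 1 := by
    rw [hs, div_le_one hx0]; linarith
  have hbound := log_M_le Y n hs0
  -- the smooth part
  have E1 : (Nat.primeCounting Y : ℝ) * Real.log (n + 1) ≤ lam * x := by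
    have h1 := cheb (y := eta * x) (by linarith)
    rw [← hY] at h1
    have hlog : 0 < Real.log (eta * x) := Real.log_pos (by linarith)
    have h2 : Real.log (n + 1) ≤ 3 * Real.log (eta * x) := by
      have : 3 * Real.log (eta * x) = Real.log ((eta * x) ^ 3) := by
        rw [Real.log_pow]; norm_num
      rw [this]
      apply Real.log_le_log (by positivity)
      rw [← hxn]
      have h3 : (eta * x) ^ 3 = (x * eta ^ 3) * x ^ 2 := by ring
      rw [h3]
      nlinarith [sq_nonneg x]
    calc (Nat.primeCounting Y : ℝ) * Real.log (n + 1)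
        ≤ (Nat.primeCounting Y : ℝ) * (3 * Real.log (eta * x)) :=
          mul_le_mul_of_nonneg_left h2 (Nat.cast_nonneg _)
      _ = 3 * ((Nat.primeCounting Y : ℝ) * Real.log (eta * x)) := by ring
      _ ≤ 3 * (5 * (eta * x)) := by linarith
      _ = lam * x := by rw [heta]; ring
  have E2 : s * n = lam * x := by
    rw [← hxn, pow_two, ← mul_assoc, hsx]
  -- termwise bounds
  have hterm1 : ∀ t ∈ T Y n, -Real.log (1 - Real.exp (-(s * t))) ≤ C1 := by
    intro t ht
    obtain ⟨⟨ht1, _⟩, p, hp, hYp, hpt⟩ := mem_T.1 ht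
    have h1 : Y + 1 ≤ t := (Nat.succ_le_of_lt hYp).trans (Nat.le_of_dvd (by omega) hpt)
    have h2 : (Y : ℝ) + 1 ≤ t := by exact_mod_cast h1
    have h3 : eta * x ≤ t := by linarith
    have h4 : lam * eta ≤ s * t := by
      calc lam * eta = s * (eta * x) := by rw [← hsx]; ring
        _ ≤ s * t := mul_le_mul_of_nonneg_left h3 hs0.le
    rw [hC1, neg_le_neg_iff]
    apply Real.log_le_log (by linarith)
    have : Real.exp (-(s * t)) ≤ Real.exp (-(lam * eta)) := Real.exp_le_exp.2 (by linarith)
    linarith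
  have hterm2 : ∀ t ∈ T Y n, ¬ ((t : ℝ) ≤ K * x) → -Real.log (1 - Real.exp (-(s * t))) ≤
      2 * Real.exp (-(lam * K / 2)) * Real.exp (-(s / 2 * t)) := by
    intro t _ ht2
    push Not at ht2
    have h1 : lam * K ≤ s * t := by
      calc lam * K = s * (K * x) := by rw [← hsx]; ring
        _ ≤ s * t := mul_le_mul_of_nonneg_left ht2.le hs0.le
    have h2 : Real.exp (-(s * t)) ≤ 1 / 2 := by
      have h3 : Real.exp (-(s * t)) ≤ Real.exp (-1) := Real.exp_le_exp.2 (by linarith)
      have h4 : Real.exp (-1) ≤ 1 / 2 := by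
        rw [Real.exp_neg, one_div]
        apply inv_anti₀ (by norm_num)
        have := Real.add_one_le_exp 1
        linarith
      linarith
    refine (neg_log_le (Real.exp_pos _).le h2).trans ?_
    rw [mul_assoc, ← Real.exp_add]
    apply mul_le_mul_of_nonneg_left _ (by norm_num)
    apply Real.exp_le_exp.2
    linarith
  have E3 : ∑ t ∈ T Y n, -Real.log (1 - Real.exp (-(s * t))) ≤ lam * x + lam * x := by
    rw [← sum_filter_add_sum_filter_not (T Y n) (fun t : ℕ => (t : ℝ) ≤ K * x)]
    apply add_le_add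
    · calc ∑ t ∈ (T Y n).filter (fun t : ℕ => (t : ℝ) ≤ K * x), -Real.log (1 - Real.exp (-(s * t)))
          ≤ ∑ t ∈ (T Y n).filter (fun t : ℕ => (t : ℝ) ≤ K * x), C1 :=
            sum_le_sum fun t ht => hterm1 t (mem_filter.1 ht).1
        _ = (((T Y n).filter fun t : ℕ => (t : ℝ) ≤ K * x).card : ℝ) * C1 := by
            rw [sum_const, nsmul_eq_mul]
        _ ≤ ((Nat.primeCounting ⌊K * x⌋₊ : ℝ) * (K * x / Y)) * C1 :=
            mul_le_mul_of_nonneg_right (card_small hY1 (by positivity)) hC10
        _ ≤ ((Nat.primeCounting ⌊K * x⌋₊ : ℝ) * (2 * K / eta)) * C1 := by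
            apply mul_le_mul_of_nonneg_right _ hC10
            apply mul_le_mul_of_nonneg_left _ (Nat.cast_nonneg _)
            have hYr : (0 : ℝ) < Y := by exact_mod_cast hY1
            rw [div_le_div_iff₀ hYr heta0]
            nlinarith
        _ ≤ lam * x := by
            have h1 := cheb (y := K * x) (by linarith)
            have hDle : D ≤ Real.log (K * x) := by
              rw [Real.le_log_iff_exp_le (by positivity)]
              linarith
            have h2 : (Nat.primeCounting ⌊K * x⌋₊ : ℝ) * D ≤ 5 * (K * x) :=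
              (mul_le_mul_of_nonneg_left hDle (Nat.cast_nonneg _)).trans h1
            have h3 : ((Nat.primeCounting ⌊K * x⌋₊ : ℝ) * (2 * K / eta)) * C1 =
                ((Nat.primeCounting ⌊K * x⌋₊ : ℝ) * D) * (lam / (5 * K)) := by
              rw [hD]
              field_simp
              ring
            rw [h3]
            calc ((Nat.primeCounting ⌊K * x⌋₊ : ℝ) * D) * (lam / (5 * K))
                ≤ (5 * (K * x)) * (lam / (5 * K)) :=
                  mul_le_mul_of_nonneg_right h2 (by positivity)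
              _ = lam * x := by field_simp
    · calc ∑ t ∈ (T Y n).filter (fun t : ℕ => ¬ (t : ℝ) ≤ K * x), -Real.log (1 - Real.exp (-(s * t)))
          ≤ ∑ t ∈ (T Y n).filter (fun t : ℕ => ¬ (t : ℝ) ≤ K * x),
              2 * Real.exp (-(lam * K / 2)) * Real.exp (-(s / 2 * t)) :=
            sum_le_sum fun t ht => hterm2 t (mem_filter.1 ht).1 (mem_filter.1 ht).2
        _ ≤ ∑ t ∈ range (n + 1), 2 * Real.exp (-(lam * K / 2)) * Real.exp (-(s / 2 * t)) := by
            apply sum_le_sum_of_subset_of_nonneg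
            · intro t ht
              rw [mem_filter, mem_T] at ht
              rw [mem_range]
              omega
            · intro t _ _
              positivity
        _ = 2 * Real.exp (-(lam * K / 2)) * ∑ t ∈ range (n + 1), Real.exp (-(s / 2 * t)) := by
            rw [mul_sum]
        _ ≤ 2 * Real.exp (-(lam * K / 2)) * (2 / (s / 2)) :=
            mul_le_mul_of_nonneg_left (geom_bound (by positivity) (by linarith) _) (by positivity)
        _ = (8 * Real.exp (-(lam * K / 2)) / lam) * x := by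
            rw [hs]
            field_simp
            ring
        _ ≤ lam * x := mul_le_mul_of_nonneg_right hK2 hx0.le
  calc Real.log (M n) ≤ lam * x + lam * x + (lam * x + lam * x) := by linarith
    _ = 4 * lam * x := by ring
    _ ≤ ε * x := mul_le_mul_of_nonneg_right hlamε hx0.le

/-- `log M(n) / √n` converges to `0`; in particular it does not converge to a positive
constant. -/
theorem result :
    Filter.Tendsto (fun n : ℕ => Real.log (M n) / √(n : ℝ)) Filter.atTop (nhds 0) ∧
    ¬ ∃ C : ℝ, 0 < C ∧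
      Filter.Tendsto (fun n : ℕ => Real.log (M n) / √(n : ℝ)) Filter.atTop (nhds C) := by
  have hlim : Filter.Tendsto (fun n : ℕ => Real.log (M n) / √(n : ℝ)) Filter.atTop (nhds 0) := by
    rw [Metric.tendsto_atTop]
    intro ε hε
    obtain ⟨X0, hX0⟩ := main_bound (half_pos hε)
    refine ⟨⌈(max X0 1) ^ 2⌉₊, fun n hn => ?_⟩
    have h1 : (max X0 1) ^ 2 ≤ (n : ℝ) := (Nat.le_ceil _).trans (by exact_mod_cast hn)
    have h2 : max X0 1 ≤ √(n : ℝ) := Real.le_sqrt_of_sq_le h1
    have h3 := hX0 n ((le_max_left _ _).trans h2)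
    have h4 : 0 < √(n : ℝ) := lt_of_lt_of_le (by norm_num) ((le_max_right X0 1).trans h2)
    have h5 : 0 ≤ Real.log (M n) := Real.log_nonneg (by exact_mod_cast M_pos n)
    rw [Real.dist_eq, sub_zero, abs_of_nonneg (by positivity), div_lt_iff₀ h4]
    nlinarith
  refine ⟨hlim, ?_⟩
  rintro ⟨C, hC, hC2⟩
  exact hC.ne' (tendsto_nhds_unique hC2 hlim)

end Pool.Agent.Results.MP_155ab0_nt.LimitZero
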